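import Pool.Agent.R951.Stack.Count

open MeasureTheory Set

namespace Pool.Agent.R951.Stack

lemma geom_le (K : ℕ) : ∑ k ∈ Finset.range K, (2⁻¹ : ENNReal) ^ k ≤ 2 := by
  refine (ENNReal.sum_le_tsum _).trans ?_
  rw [ENNReal.tsum_geometric, ENNReal.one_sub_inv_two, inv_inv]

lemma geom_le' (g K : ℕ) : ∑ k ∈ Finset.Ico (g+1) K, (2⁻¹ : ENNReal) ^ k ≤ 2⁻¹ ^ g := by
  rw [Finset.sum_Ico_eq_sum_range]
  have : ∀ k : ℕ, (2⁻¹ : ENNReal) ^ (g + 1 + k) = 2⁻¹ ^ (g+1) * 2⁻¹ ^ k := fun k => by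
    rw [pow_add]
  simp only [this]
  rw [← Finset.mul_sum]
  calc (2⁻¹ : ENNReal) ^ (g+1) * ∑ k ∈ Finset.range (K - (g+1)), (2⁻¹ : ENNReal) ^ k
      ≤ 2⁻¹ ^ (g+1) * 2 := by gcongr; exact geom_le _
    _ = 2⁻¹ ^ g := by
      rw [pow_succ, mul_assoc, ENNReal.inv_mul_cancel (by norm_num) (by norm_num), mul_one]

lemma sum_bound (W : Finset V) (d : V → ℕ) (hd : ∀ u ∈ W, ∀ v ∈ W, u.1 = v.1 → d u = d v → u = v)
    (a g : ℕ) (hag : 2 * a + 1 ≤ 2 ^ g) (h1 : ∀ v ∈ W, |v.1| ≤ a)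
    (h2 : ∀ v ∈ W, d v ≤ g → |v.1| ≤ 1) :
    ∑ v ∈ W, (2⁻¹ : ENNReal) ^ (d v) ≤ 7 := by
  classical
  let K := W.sup d + 1
  let Z1 : Finset (ℤ × ℕ) := Finset.Icc (-1) 1 ×ˢ Finset.range K
  let Z2 : Finset (ℤ × ℕ) := Finset.Icc (-(a:ℤ)) a ×ˢ Finset.Ico (g+1) K
  have e1 : ∑ v ∈ W, (2⁻¹ : ENNReal) ^ (d v) =
      ∑ z ∈ W.image (fun v => (v.1, d v)), (2⁻¹ : ENNReal) ^ z.2 := by
    rw [Finset.sum_image]
    intro u hu v hv huv
    simp only [Prod.mk.injEq] at huv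
    exact hd u hu v hv huv.1 huv.2
  have e2 : W.image (fun v => (v.1, d v)) ⊆ Z1 ∪ Z2 := by
    intro z hz
    obtain ⟨v, hv, rfl⟩ := Finset.mem_image.1 hz
    have hK : d v < K := Nat.lt_succ_of_le (Finset.le_sup hv)
    by_cases hg : d v ≤ g
    · refine Finset.mem_union_left _ ?_
      have := abs_le.1 (h2 v hv hg)
      simp only [Z1, Finset.mem_product, Finset.mem_Icc, Finset.mem_range]
      exact ⟨this, hK⟩
    · refine Finset.mem_union_right _ ?_
      have := abs_le.1 (h1 v hv)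
      simp only [Z2, Finset.mem_product, Finset.mem_Icc, Finset.mem_Ico]
      exact ⟨this, by omega, hK⟩
  have s1 : ∑ z ∈ Z1, (2⁻¹ : ENNReal) ^ z.2 ≤ 6 := by
    simp only [Z1]
    rw [Finset.sum_product]
    simp only [Finset.sum_const]
    rw [show (Finset.Icc (-1:ℤ) 1).card = 3 by rfl, nsmul_eq_mul]
    calc ((3:ℕ) : ENNReal) * ∑ k ∈ Finset.range K, (2⁻¹ : ENNReal) ^ k ≤ (3:ℕ) * 2 := by
          gcongr; exact geom_le _
      _ = 6 := by norm_num
  have s2 : ∑ z ∈ Z2, (2⁻¹ : ENNReal) ^ z.2 ≤ 1 := by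
    simp only [Z2]
    rw [Finset.sum_product]
    simp only [Finset.sum_const]
    rw [Int.card_Icc, nsmul_eq_mul]
    have hc : ((a:ℤ) + 1 - -(a:ℤ)).toNat = 2 * a + 1 := by omega
    rw [hc]
    calc ((2 * a + 1 : ℕ) : ENNReal) * ∑ k ∈ Finset.Ico (g+1) K, (2⁻¹ : ENNReal) ^ k
        ≤ ((2 ^ g : ℕ) : ENNReal) * 2⁻¹ ^ g := by
          gcongr
          · exact geom_le' g K
      _ = 1 := by
          push_cast
          rw [← mul_pow, ENNReal.mul_inv_cancel (by norm_num) (by norm_num), one_pow]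
  calc ∑ v ∈ W, (2⁻¹ : ENNReal) ^ (d v)
      = ∑ z ∈ W.image (fun v => (v.1, d v)), (2⁻¹ : ENNReal) ^ z.2 := e1
    _ ≤ ∑ z ∈ Z1 ∪ Z2, (2⁻¹ : ENNReal) ^ z.2 := Finset.sum_le_sum_of_subset e2
    _ ≤ ∑ z ∈ Z1, (2⁻¹ : ENNReal) ^ z.2 + ∑ z ∈ Z2, (2⁻¹ : ENNReal) ^ z.2 :=
        by rw [← Finset.sum_union_inter]; exact le_self_add
    _ ≤ 6 + 1 := add_le_add s1 s2
    _ = 7 := by norm_num

/-- sum over a slab -/
lemma slab_sum (W : Finset V) (lo hi : ℤ) (a g h : ℕ) (hag : 2 * a + 1 ≤ 2 ^ g)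
    (hW : ∀ v ∈ W, lo < v.2 ∧ v.2 < hi) (h1 : ∀ v ∈ W, |v.1| ≤ a)
    (h2 : ∀ v ∈ W, hi - g ≤ v.2 → |v.1| ≤ 1) (h3 : ∀ v ∈ W, v.2 ≤ lo + g → |v.1| ≤ 1) :
    ∑ v ∈ W, (2⁻¹ : ENNReal) ^ (h + (min (hi - v.2) (v.2 - lo)).toNat) ≤ 14 * 2⁻¹ ^ h := by
  have e : ∀ v ∈ W, (2⁻¹ : ENNReal) ^ (h + (min (hi - v.2) (v.2 - lo)).toNat) ≤
      2⁻¹ ^ h * (2⁻¹ ^ (hi - v.2).toNat + 2⁻¹ ^ (v.2 - lo).toNat) := by
    intro v _
    rw [pow_add]
    gcongr
    rcases min_choice (hi - v.2) (v.2 - lo) with hm | hm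
    · rw [hm]; exact le_self_add
    · rw [hm]; exact le_add_self
  refine (Finset.sum_le_sum e).trans ?_
  rw [← Finset.mul_sum, Finset.sum_add_distrib, mul_comm (14 : ENNReal)]
  gcongr
  calc _ ≤ (7 : ENNReal) + 7 := by
        refine add_le_add (sum_bound W (fun v => (hi - v.2).toNat) ?_ a g hag h1 ?_)
          (sum_bound W (fun v => (v.2 - lo).toNat) ?_ a g hag h1 ?_)
        · intro u hu v hv e1 e2
          have := hW u hu; have := hW v hv
          exact Prod.ext e1 (by omega)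
        · intro v hv hd
          have := hW v hv
          exact h2 v hv (by omega)
        · intro u hu v hv e1 e2
          have := hW u hu; have := hW v hv
          exact Prod.ext e1 (by omega)
        · intro v hv hd
          have := hW v hv
          exact h3 v hv (by omega)
    _ = 14 := by norm_num

open Classical in
/-- edge probabilities: `q` for pairs inside `R`, `p` for all others -/
noncomputable def rr (R : Set V) (p q : unitInterval) : Sym2 V → unitInterval := fun e =>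
  if ∀ x ∈ e, x ∈ R then q else p

def hij (hi0 : ℤ) (h j : ℕ) : ℤ := hi0 + j * (h + 2)
def loj (lo0 : ℤ) (h j : ℕ) : ℤ := lo0 - j * (h + 2)

noncomputable def Uj (lo0 hi0 : ℤ) (h j : ℕ) (k : ℤ) : Finset V :=
  (Finset.Icc (-1) 1 ×ˢ Finset.Icc (hij hi0 h j - k) (hij hi0 h j + h + k)) ∪
    (Finset.Icc (-1) 1 ×ˢ Finset.Icc (loj lo0 h j - h - k) (loj lo0 h j + k))

noncomputable def Sj (lo0 hi0 : ℤ) (h j : ℕ) : Finset (Sym2 V) :=
  (Uj lo0 hi0 h j 0 ×ˢ Uj lo0 hi0 h j 1).image fun x => s(x.1, x.2)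

lemma mem_Uj {lo0 hi0 : ℤ} {h j : ℕ} {k : ℤ} {v : V} : v ∈ Uj lo0 hi0 h j k ↔
    (-1 ≤ v.1 ∧ v.1 ≤ 1) ∧ ((hij hi0 h j - k ≤ v.2 ∧ v.2 ≤ hij hi0 h j + h + k) ∨
      (loj lo0 h j - h - k ≤ v.2 ∧ v.2 ≤ loj lo0 h j + k)) := by
  simp only [Uj, Finset.mem_union, Finset.mem_product, Finset.mem_Icc]
  tauto

lemma hij_diff {hi0 : ℤ} {h i j : ℕ} (hij' : i < j) : hij hi0 h i + h + 2 ≤ hij hi0 h j := by
  unfold hij
  have : (i:ℤ) + 1 ≤ j := by exact_mod_cast hij'
  nlinarith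

lemma loj_diff {lo0 : ℤ} {h i j : ℕ} (hij' : i < j) : loj lo0 h j + h + 2 ≤ loj lo0 h i := by
  unfold loj
  have : (i:ℤ) + 1 ≤ j := by exact_mod_cast hij'
  nlinarith

lemma hij_ge {hi0 : ℤ} {h j : ℕ} : hi0 ≤ hij hi0 h j := by
  unfold hij; have : (0:ℤ) ≤ j * (h + 2) := by positivity
  linarith

lemma loj_le {lo0 : ℤ} {h j : ℕ} : loj lo0 h j ≤ lo0 := by
  unfold loj; have : (0:ℤ) ≤ j * (h + 2) := by positivity
  linarith

lemma Uj_disj {lo0 hi0 : ℤ} (hlo : lo0 < 0) (hhi : 0 < hi0) {h i j : ℕ} (hne : i ≠ j) {v : V}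
    (h1 : v ∈ Uj lo0 hi0 h i 0) (h2 : v ∈ Uj lo0 hi0 h j 1) : False := by
  rw [mem_Uj] at h1 h2
  have a1 := hij_ge (hi0 := hi0) (h := h) (j := i)
  have a2 := hij_ge (hi0 := hi0) (h := h) (j := j)
  have a3 := loj_le (lo0 := lo0) (h := h) (j := i)
  have a4 := loj_le (lo0 := lo0) (h := h) (j := j)
  rcases Nat.lt_or_gt_of_ne hne with hl | hl
  · have b1 := hij_diff (hi0 := hi0) (h := h) hl
    have b2 := loj_diff (lo0 := lo0) (h := h) hl
    omega
  · have b1 := hij_diff (hi0 := hi0) (h := h) hl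
    have b2 := loj_diff (lo0 := lo0) (h := h) hl
    omega

lemma Uj_mono {lo0 hi0 : ℤ} {h j : ℕ} {v : V} (h1 : v ∈ Uj lo0 hi0 h j 0) :
    v ∈ Uj lo0 hi0 h j 1 := by
  rw [mem_Uj] at h1 ⊢
  omega

lemma Sj_disj {lo0 hi0 : ℤ} (hlo : lo0 < 0) (hhi : 0 < hi0) {h i j : ℕ} (hne : i ≠ j) :
    Disjoint (Sj lo0 hi0 h i) (Sj lo0 hi0 h j) := by
  rw [Finset.disjoint_left]
  intro e he he'
  simp only [Sj, Finset.mem_image, Finset.mem_product] at he he'
  obtain ⟨⟨u, u'⟩, ⟨hu, hu'⟩, rfl⟩ := he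
  obtain ⟨⟨v, v'⟩, ⟨hv, hv'⟩, hvv⟩ := he'
  simp only [Sym2.eq_iff] at hvv
  rcases hvv with ⟨rfl, rfl⟩ | ⟨rfl, rfl⟩
  · exact Uj_disj hlo hhi hne hu (Uj_mono hv)
  · exact Uj_disj hlo hhi hne hu hv'

lemma Sj_card {lo0 hi0 : ℤ} {h j : ℕ} : (Sj lo0 hi0 h j).card ≤ 36 * (h + 3) ^ 2 := by
  unfold Sj
  refine Finset.card_image_le.trans ?_
  rw [Finset.card_product]
  have h1 : (Uj lo0 hi0 h j 0).card ≤ 6 * (h + 3) := by
    unfold Uj
    refine (Finset.card_union_le _ _).trans ?_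
    rw [Finset.card_product, Finset.card_product, Int.card_Icc, Int.card_Icc, Int.card_Icc]
    have : ((1:ℤ) + 1 - -1).toNat = 3 := rfl
    rw [this]; omega
  have h2 : (Uj lo0 hi0 h j 1).card ≤ 6 * (h + 3) := by
    unfold Uj
    refine (Finset.card_union_le _ _).trans ?_
    rw [Finset.card_product, Finset.card_product, Int.card_Icc, Int.card_Icc, Int.card_Icc]
    have : ((1:ℤ) + 1 - -1).toNat = 3 := rfl
    rw [this]; omega
  calc _ ≤ (6 * (h + 3)) * (6 * (h + 3)) := Nat.mul_le_mul h1 h2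
    _ = _ := by ring

theorem slab_bound {R : Set V} (h0 : (0:V) ∈ R) {lo0 hi0 : ℤ} (hlo : lo0 < 0) (hhi : 0 < hi0)
    (a g h m : ℕ) (hg1 : 1 ≤ g) (hag : 2 * a + 1 ≤ 2 ^ g)
    (hR : ∀ v ∈ R, loj lo0 h m < v.2 → v.2 < hij hi0 h m → |v.1| ≤ a)
    (hT : ∀ v : V, (hi0 - g ≤ v.2 ∧ v.2 ≤ hij hi0 h m ∨ loj lo0 h m ≤ v.2 ∧ v.2 ≤ lo0 + g) →
      (v ∈ R ↔ |v.1| ≤ 1))
    {p q : unitInterval} (hp : (p:ℝ) ≤ 1/8) :
    Perc (rr R p q) {ω | (cluster ω).Infinite} ≤
      (1 - ENNReal.ofReal (1 - q) ^ (36 * (h + 3) ^ 2)) ^ m + 14 * 2⁻¹ ^ h := by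
  classical
  set μ := Perc (rr R p q) with hμ
  let S : ℕ → Finset (Sym2 V) := Sj lo0 hi0 h
  let C : ℕ → Set (Sym2 V → Bool) := fun j => {ω | ∀ e ∈ S j, ω e ∈ ({false} : Set Bool)}
  -- enlarged slabs of index `j < m` are in `R`
  have hUR : ∀ j < m, ∀ v ∈ Uj lo0 hi0 h j 1, v ∈ R := by
    intro j hj v hv
    rw [mem_Uj] at hv
    have a1 := hij_ge (hi0 := hi0) (h := h) (j := j)
    have a3 := loj_le (lo0 := lo0) (h := h) (j := j)
    have b1 := hij_diff (hi0 := hi0) (h := h) hj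
    have b2 := loj_diff (lo0 := lo0) (h := h) hj
    refine (hT v ?_).2 (abs_le.2 hv.1)
    omega
  have hSR : ∀ j < m, ∀ e ∈ S j, ∀ x ∈ e, x ∈ R := by
    intro j hj e he x hx
    simp only [S, Sj, Finset.mem_image, Finset.mem_product] at he
    obtain ⟨⟨u, u'⟩, ⟨hu, hu'⟩, rfl⟩ := he
    simp only [Sym2.mem_iff] at hx
    rcases hx with rfl | rfl
    · exact hUR j hj _ (Uj_mono hu)
    · exact hUR j hj _ hu'
  have hCdep : ∀ j, Dep (S j) (C j) := fun j x y hxy hx e he => by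
    rw [← hxy e he]; exact hx e he
  have hCprob : ∀ j < m, ENNReal.ofReal (1 - q) ^ (36 * (h + 3) ^ 2) ≤ μ (C j) := by
    intro j hj
    rw [hμ]
    unfold Perc
    simp only [C]
    rw [cyl]
    have : ∀ e ∈ S j, bern (rr R p q e) {false} = ENNReal.ofReal (1 - q) := by
      intro e he
      rw [bern_false, rr, if_pos (hSR j hj e he)]
    rw [Finset.prod_congr rfl this, Finset.prod_const]
    exact pow_le_pow_of_le_one (zero_le) (by
      rw [ENNReal.ofReal_le_one]; linarith [q.2.1]) Sj_card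
  -- the event that no slab is closed
  let S' : ℕ → Finset (Sym2 V) := fun j => if j < m then S j else ∅
  let C' : ℕ → Set (Sym2 V → Bool) := fun j => if j < m then C j else univ
  have hnone : μ (⋂ j ∈ Finset.range m, (C j)ᶜ) ≤
      (1 - ENNReal.ofReal (1 - q) ^ (36 * (h + 3) ^ 2)) ^ m := by
    have h1 := blocks (fun e => bern (rr R p q e)) S' (fun i j hne => by
      simp only [S']
      split_ifs
      · exact Sj_disj hlo hhi hne
      all_goals simp) C' (fun j => by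
      simp only [S', C']
      split_ifs
      · exact hCdep j
      · exact fun _ _ _ _ => mem_univ _) (ENNReal.ofReal (1 - q) ^ (36 * (h + 3) ^ 2))
      (fun j => by
        simp only [C']
        split_ifs with hj
        · exact hCprob j hj
        · rw [measure_univ]
          exact pow_le_one₀ (zero_le) (by rw [ENNReal.ofReal_le_one]; linarith [q.2.1])) m
    refine le_trans (le_of_eq ?_) h1
    congr 1
    refine iInter₂_congr fun j hj => ?_
    simp only [C', if_pos (Finset.mem_range.1 hj)]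
  let A : ℕ → Set (Sym2 V → Bool) := fun j => C j ∩ ⋂ i ∈ Finset.range j, (C i)ᶜ
  let Stot : Finset (Sym2 V) := (Finset.range m).biUnion S
  have hAdep : ∀ j < m, Dep Stot (A j) := by
    intro j hj
    refine Dep.inter ((hCdep j).mono (Finset.subset_biUnion_of_mem S (Finset.mem_range.2 hj))) ?_
    intro x y hxy hx
    simp only [mem_iInter] at hx ⊢
    intro i hi
    have him : i ∈ Finset.range m := Finset.mem_range.2 ((Finset.mem_range.1 hi).trans hj)
    exact ((hCdep i).mono (Finset.subset_biUnion_of_mem S him)).compl x y hxy (hx i hi)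
  have hStot : ∀ e ∈ Stot, e ∉ Nset R := by
    intro e he hN
    obtain ⟨j, hj, hej⟩ := Finset.mem_biUnion.1 he
    exact hN (hSR j (Finset.mem_range.1 hj) e hej)
  let W : ℕ → Finset V := fun j =>
    (Finset.Icc (-(a:ℤ)) a ×ˢ Finset.Ioo (loj lo0 h j) (hij hi0 h j)).filter (· ∈ R)
  let nn : ℕ → V → ℕ := fun j v => h + (min (hij hi0 h j - v.2) (v.2 - loj lo0 h j)).toNat
  have hRj : ∀ j < m, ∀ v ∈ R, loj lo0 h j < v.2 → v.2 < hij hi0 h j → |v.1| ≤ a := by
    intro j hj v hv h1 h2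
    have b1 := hij_diff (hi0 := hi0) (h := h) hj
    have b2 := loj_diff (lo0 := lo0) (h := h) hj
    exact hR v hv (by omega) (by omega)
  -- inclusion
  have hincl : {ω | (cluster ω).Infinite} ⊆ (⋂ j ∈ Finset.range m, (C j)ᶜ) ∪
      ⋃ j ∈ Finset.range m, ⋃ v ∈ W j, (A j ∩ PathFrom (Nset R) v (nn j v)) := by
    intro ω hω
    by_cases hex : ∃ j, j < m ∧ ω ∈ C j
    · right
      have hj := Nat.find_spec hex
      set j := Nat.find hex with hjdef
      have hA : ω ∈ A j := by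
        refine ⟨hj.2, ?_⟩
        simp only [mem_iInter]
        intro i hi hCi
        have hi' := Finset.mem_range.1 hi
        exact Nat.find_min hex hi' ⟨hi'.trans hj.1, hCi⟩
      have b1 := hij_ge (hi0 := hi0) (h := h) (j := j)
      have b2 := loj_le (lo0 := lo0) (h := h) (j := j)
      obtain ⟨v, hvR, hv1, hv2, hv3⟩ := det h0 (lo := loj lo0 h j) (hi := hij hi0 h j)
        (by omega) (by omega) h (hRj j hj.1) (ω := ω) (by
          intro u v hu hv huv hband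
          have hu1 : |u.1| ≤ 1 := (hT u (by
            have c1 := hij_diff (hi0 := hi0) (h := h) hj.1
            have c2 := loj_diff (lo0 := lo0) (h := h) hj.1
            omega)).1 hu
          have hadj : |u.1 - v.1| + |u.2 - v.2| = 1 := huv
          have hv2 : |u.2 - v.2| ≤ 1 := by
            have := abs_nonneg (u.1 - v.1); linarith
          have hv1 : |v.1| ≤ 1 := (hT v (by
            have c1 := hij_diff (hi0 := hi0) (h := h) hj.1
            have c2 := loj_diff (lo0 := lo0) (h := h) hj.1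
            rw [abs_le] at hv2
            omega)).1 hv
          have hmem : s(u, v) ∈ S j := by
            simp only [S, Sj, Finset.mem_image, Finset.mem_product]
            refine ⟨(u, v), ⟨?_, ?_⟩, rfl⟩
            · change u ∈ Uj _ _ _ _ _
              rw [mem_Uj]
              exact ⟨abs_le.1 hu1, by omega⟩
            · change v ∈ Uj _ _ _ _ _
              rw [mem_Uj]
              rw [abs_le] at hv2
              exact ⟨abs_le.1 hv1, by omega⟩
          exact hj.2 _ hmem) hω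
      refine mem_iUnion₂.2 ⟨j, Finset.mem_range.2 hj.1, mem_iUnion₂.2 ⟨v, ?_, hA, hv3⟩⟩
      simp only [W, Finset.mem_filter, Finset.mem_product, Finset.mem_Icc, Finset.mem_Ioo]
      exact ⟨⟨abs_le.1 (hRj j hj.1 v hvR hv1 hv2), hv1, hv2⟩, hvR⟩
    · left
      simp only [mem_iInter]
      intro j hj hCj
      exact hex ⟨j, Finset.mem_range.1 hj, hCj⟩
  have hN : ∀ e ∈ Nset R, ENNReal.ofReal (rr R p q e) ≤ 8⁻¹ := by
    intro e he
    rw [rr, if_neg he]
    calc ENNReal.ofReal p ≤ ENNReal.ofReal (1/8) := ENNReal.ofReal_le_ofReal hp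
      _ = 8⁻¹ := by
        rw [one_div, ENNReal.ofReal_inv_of_pos (by norm_num)]; norm_num
  have h48 : (4 * 8⁻¹ : ENNReal) = 2⁻¹ := by
    rw [show (8:ENNReal) = 4 * 2 by norm_num, ENNReal.mul_inv (by norm_num) (by norm_num),
      ← mul_assoc, ENNReal.mul_inv_cancel (by norm_num) (by norm_num), one_mul]
  have hAF : ∀ j < m, μ (⋃ v ∈ W j, (A j ∩ PathFrom (Nset R) v (nn j v))) ≤
      μ (A j) * (14 * 2⁻¹ ^ h) := by
    intro j hj
    calc μ (⋃ v ∈ W j, (A j ∩ PathFrom (Nset R) v (nn j v)))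
        ≤ ∑ v ∈ W j, μ (A j ∩ PathFrom (Nset R) v (nn j v)) := measure_biUnion_finset_le _ _
      _ ≤ ∑ v ∈ W j, μ (A j) * 2⁻¹ ^ (nn j v) := by
          refine Finset.sum_le_sum fun v _ => ?_
          have := path_bound (rr R p q) (Nset R) hN v (nn j v) Stot hStot (A j) (hAdep j hj)
          rwa [h48] at this
      _ = μ (A j) * ∑ v ∈ W j, 2⁻¹ ^ (nn j v) := by rw [Finset.mul_sum]
      _ ≤ μ (A j) * (14 * 2⁻¹ ^ h) := by
          gcongr
          have c1 := hij_diff (hi0 := hi0) (h := h) hj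
          have c2 := loj_diff (lo0 := lo0) (h := h) hj
          have b1 := hij_ge (hi0 := hi0) (h := h) (j := j)
          have b2 := loj_le (lo0 := lo0) (h := h) (j := j)
          refine slab_sum (W j) (loj lo0 h j) (hij hi0 h j) a g h hag ?_ ?_ ?_ ?_
          all_goals
            intro v hv
            simp only [W, Finset.mem_filter, Finset.mem_product, Finset.mem_Icc,
              Finset.mem_Ioo] at hv
          · exact hv.1.2
          · exact abs_le.2 hv.1.1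
          · intro hgv
            exact (hT v (by omega)).1 hv.2
          · intro hgv
            exact (hT v (by omega)).1 hv.2
  have hAdisj : ∑ j ∈ Finset.range m, μ (A j) ≤ 1 := by
    rw [← measure_biUnion_finset]
    · exact prob_le_one
    · intro i hi j hj hne
      simp only [Function.onFun]
      rw [Set.disjoint_left]
      intro ω h1 h2
      rcases Nat.lt_or_gt_of_ne hne with hl | hl
      · have := h2.2
        simp only [mem_iInter] at this
        exact this i (Finset.mem_range.2 hl) h1.1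
      · have := h1.2
        simp only [mem_iInter] at this
        exact this j (Finset.mem_range.2 hl) h2.1
    · intro j hj
      exact (hAdep j (Finset.mem_range.1 hj)).meas
  calc μ {ω | (cluster ω).Infinite}
      ≤ μ ((⋂ j ∈ Finset.range m, (C j)ᶜ) ∪
      ⋃ j ∈ Finset.range m, ⋃ v ∈ W j, (A j ∩ PathFrom (Nset R) v (nn j v))) := measure_mono hincl
    _ ≤ μ (⋂ j ∈ Finset.range m, (C j)ᶜ) +
      μ (⋃ j ∈ Finset.range m, ⋃ v ∈ W j, (A j ∩ PathFrom (Nset R) v (nn j v))) :=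
        measure_union_le _ _
    _ ≤ (1 - ENNReal.ofReal (1 - q) ^ (36 * (h + 3) ^ 2)) ^ m +
      ∑ j ∈ Finset.range m, μ (⋃ v ∈ W j, (A j ∩ PathFrom (Nset R) v (nn j v))) :=
        add_le_add hnone (measure_biUnion_finset_le _ _)
    _ ≤ (1 - ENNReal.ofReal (1 - q) ^ (36 * (h + 3) ^ 2)) ^ m +
      ∑ j ∈ Finset.range m, μ (A j) * (14 * 2⁻¹ ^ h) := by
        gcongr with j hj
        exact hAF j (Finset.mem_range.1 hj)
    _ = (1 - ENNReal.ofReal (1 - q) ^ (36 * (h + 3) ^ 2)) ^ m +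
      (∑ j ∈ Finset.range m, μ (A j)) * (14 * 2⁻¹ ^ h) := by rw [Finset.sum_mul]
    _ ≤ (1 - ENNReal.ofReal (1 - q) ^ (36 * (h + 3) ^ 2)) ^ m + 1 * (14 * 2⁻¹ ^ h) := by
        gcongr
    _ = _ := by rw [one_mul]

end Pool.Agent.R951.Stack
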