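import Pool.Agent.R951.Stack.Det

open MeasureTheory Set

namespace Pool.Agent.R951.Stack

/-- the law of one edge: open (`true`) with probability `p` -/
noncomputable def bern (p : unitInterval) : Measure Bool :=
  ENNReal.ofReal p • Measure.dirac true + ENNReal.ofReal (1 - p) • Measure.dirac false

instance (p : unitInterval) : IsProbabilityMeasure (bern p) := by
  constructor
  simp only [bern, Measure.coe_add, Measure.coe_smul, Pi.add_apply, Pi.smul_apply, measure_univ,
    smul_eq_mul, mul_one]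
  rw [← ENNReal.ofReal_add p.2.1 (by linarith [p.2.2])]
  simp

lemma bern_true (p : unitInterval) : bern p {true} = ENNReal.ofReal p := by
  simp [bern]

lemma bern_false (p : unitInterval) : bern p {false} = ENNReal.ofReal (1 - p) := by
  simp [bern]

/-- bond percolation with edge probabilities `r` (independent edges; the coordinates of pairs
which are not edges of the grid are irrelevant) -/
noncomputable def Perc (r : Sym2 V → unitInterval) : Measure (Sym2 V → Bool) :=
  Measure.infinitePi fun e => bern (r e)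

instance (r : Sym2 V → unitInterval) : IsProbabilityMeasure (Perc r) := by
  unfold Perc; infer_instance

def step : Fin 4 → V := ![(1,0), (-1,0), (0,1), (0,-1)]

lemma exists_step {u v : V} (h : grid.Adj u v) : ∃ d, v = u + step d := by
  have h' : |u.1 - v.1| + |u.2 - v.2| = 1 := h
  have h1 := abs_nonneg (u.1 - v.1)
  have h2 := abs_nonneg (u.2 - v.2)
  have hcase : (u.1 - v.1 = 0 ∧ (u.2 - v.2 = 1 ∨ u.2 - v.2 = -1)) ∨
      (u.2 - v.2 = 0 ∧ (u.1 - v.1 = 1 ∨ u.1 - v.1 = -1)) := by
    rcases abs_cases (u.1 - v.1) with ⟨e1, _⟩ | ⟨e1, _⟩ <;>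
      rcases abs_cases (u.2 - v.2) with ⟨e2, _⟩ | ⟨e2, _⟩ <;> omega
  obtain ⟨u1, u2⟩ := u
  obtain ⟨v1, v2⟩ := v
  simp only at hcase
  rcases hcase with ⟨e1, e2 | e2⟩ | ⟨e1, e2 | e2⟩
  · exact ⟨3, by simp [step]; omega⟩
  · exact ⟨2, by simp [step]; omega⟩
  · exact ⟨1, by simp [step]; omega⟩
  · exact ⟨0, by simp [step]; omega⟩

def pos {n : ℕ} (v : V) (w : Fin n → Fin 4) (i : ℕ) : V :=
  v + ∑ j : Fin n, if j.val < i then step (w j) else 0

lemma pos_zero {n : ℕ} (v : V) (w : Fin n → Fin 4) : pos v w 0 = v := by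
  simp [pos]

lemma pos_succ {n : ℕ} (v : V) (w : Fin n → Fin 4) (i : ℕ) (hi : i < n) :
    pos v w (i+1) = pos v w i + step (w ⟨i, hi⟩) := by
  unfold pos
  rw [add_assoc]
  congr 1
  have : ∀ j : Fin n, (if j.val < i + 1 then step (w j) else 0) =
      (if j.val < i then step (w j) else 0) + (if j = ⟨i, hi⟩ then step (w j) else 0) := by
    intro j
    by_cases h1 : j.val < i
    · have h2 : j ≠ ⟨i, hi⟩ := fun h => by rw [h] at h1; exact lt_irrefl _ h1
      rw [if_pos (by omega), if_pos h1, if_neg h2, add_zero]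
    · by_cases h2 : j = ⟨i, hi⟩
      · rw [if_pos (by rw [h2]; simp), if_neg h1, if_pos h2, zero_add]
      · have h3 : j.val ≠ i := fun h => h2 (Fin.ext h)
        rw [if_neg (by omega), if_neg h1, if_neg h2, add_zero]
  rw [Finset.sum_congr rfl fun j _ => this j, Finset.sum_add_distrib]
  congr 1
  rw [Finset.sum_ite_eq' Finset.univ]
  simp

lemma exists_word {γ : ℕ → V} {n : ℕ} (h : ∀ i < n, grid.Adj (γ i) (γ (i+1))) :
    ∃ w : Fin n → Fin 4, ∀ i ≤ n, pos (γ 0) w i = γ i := by
  choose d hd using fun i : Fin n => exists_step (h i i.2)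
  refine ⟨d, fun i => ?_⟩
  induction i with
  | zero => intro _; exact pos_zero _ _
  | succ i ih =>
    intro hi
    rw [pos_succ _ _ i (by omega), ih (by omega)]
    exact (hd ⟨i, by omega⟩).symm

/-- the edges of a path -/
noncomputable def pedges (γ : ℕ → V) (n : ℕ) : Finset (Sym2 V) :=
  (Finset.range n).image fun i => s(γ i, γ (i+1))

lemma pedges_card {γ : ℕ → V} {n : ℕ} (h : InjOn γ (Iic n)) : (pedges γ n).card = n := by
  unfold pedges
  rw [Finset.card_image_of_injOn, Finset.card_range]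
  intro i hi j hj hij
  simp only [Finset.coe_range, mem_Iio] at hi hj
  simp only [Sym2.eq_iff] at hij
  have m1 : i ∈ Iic n := by simp only [mem_Iic]; omega
  have m2 : j ∈ Iic n := by simp only [mem_Iic]; omega
  have m3 : i + 1 ∈ Iic n := by simp only [mem_Iic]; omega
  have m4 : j + 1 ∈ Iic n := by simp only [mem_Iic]; omega
  rcases hij with ⟨h1, _⟩ | ⟨h1, h2⟩
  · exact h m1 m2 h1
  · have := h m1 m4 h1
    have := h m3 m2 h2
    omega

theorem path_bound (r : Sym2 V → unitInterval) (N : Set (Sym2 V)) {ρ : ENNReal}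
    (hN : ∀ e ∈ N, ENNReal.ofReal (r e) ≤ ρ) (v : V) (n : ℕ) (S : Finset (Sym2 V))
    (hSN : ∀ e ∈ S, e ∉ N) (A : Set (Sym2 V → Bool)) (hA : Dep S A) :
    Perc r (A ∩ PathFrom N v n) ≤ Perc r A * (4 * ρ) ^ n := by
  classical
  let good : (Fin n → Fin 4) → Prop := fun w =>
    InjOn (pos v w) (Iic n) ∧ ∀ i < n, s(pos v w i, pos v w (i+1)) ∈ N
  let C : (Fin n → Fin 4) → Set (Sym2 V → Bool) := fun w =>
    {ω | ∀ e ∈ pedges (pos v w) n, ω e ∈ ({true} : Set Bool)}
  have hsub : A ∩ PathFrom N v n ⊆ ⋃ w : Fin n → Fin 4, (if good w then A ∩ C w else ∅) := by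
    rintro ω ⟨hωA, γ, h0, h1, h2⟩
    obtain ⟨w, hw⟩ := exists_word (n := n) fun i hi => (h2 i hi).1
    rw [h0] at hw
    refine mem_iUnion.2 ⟨w, ?_⟩
    have hg : good w := by
      refine ⟨fun i hi j hj hij => ?_, fun i hi => ?_⟩
      · rw [hw i hi, hw j hj] at hij; exact h1 hi hj hij
      · rw [hw i hi.le, hw (i+1) hi]; exact (h2 i hi).2.1
    rw [if_pos hg]
    refine ⟨hωA, fun e he => ?_⟩
    simp only [pedges, Finset.mem_image, Finset.mem_range] at he
    obtain ⟨i, hi, rfl⟩ := he
    rw [hw i hi.le, hw (i+1) hi]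
    exact (h2 i hi).2.2
  have hone : ∀ w : Fin n → Fin 4, Perc r (if good w then A ∩ C w else ∅) ≤ Perc r A * ρ ^ n := by
    intro w
    by_cases hg : good w
    · rw [if_pos hg]
      have hd : Disjoint S (pedges (pos v w) n) := by
        rw [Finset.disjoint_left]
        intro e he he'
        simp only [pedges, Finset.mem_image, Finset.mem_range] at he'
        obtain ⟨i, hi, rfl⟩ := he'
        exact hSN _ he (hg.2 i hi)
      have hC : Dep (pedges (pos v w) n) (C w) := by
        intro x y hxy hx e he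
        rw [← hxy e he]; exact hx e he
      unfold Perc
      rw [indep_of_dep _ hd hA hC, cyl]
      refine mul_le_mul_right ?_ _
      calc ∏ e ∈ pedges (pos v w) n, bern (r e) {true}
          ≤ ∏ _e ∈ pedges (pos v w) n, ρ := by
            refine Finset.prod_le_prod' fun e he => ?_
            rw [bern_true]
            simp only [pedges, Finset.mem_image, Finset.mem_range] at he
            obtain ⟨i, hi, rfl⟩ := he
            exact hN _ (hg.2 i hi)
        _ = ρ ^ n := by rw [Finset.prod_const, pedges_card hg.1]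
    · rw [if_neg hg]; simp
  calc Perc r (A ∩ PathFrom N v n)
      ≤ Perc r (⋃ w : Fin n → Fin 4, (if good w then A ∩ C w else ∅)) := measure_mono hsub
    _ ≤ ∑ w : Fin n → Fin 4, Perc r (if good w then A ∩ C w else ∅) :=
        measure_iUnion_fintype_le _ _
    _ ≤ ∑ _w : Fin n → Fin 4, Perc r A * ρ ^ n := Finset.sum_le_sum fun w _ => hone w
    _ = Perc r A * (4 * ρ) ^ n := by
        rw [Finset.sum_const, Finset.card_univ, Fintype.card_fun, Fintype.card_fin, Fintype.card_fin,
          nsmul_eq_mul, mul_pow]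
        push_cast
        ring

end Pool.Agent.R951.Stack
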