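import Pool.Agent.R951.Stack.Prod

open MeasureTheory Set

namespace Pool.Agent.R951.Stack

abbrev V := ℤ × ℤ

/-- the nearest neighbour graph on `ℤ²` -/
def grid : SimpleGraph V where
  Adj u v := |u.1 - v.1| + |u.2 - v.2| = 1
  symm := ⟨fun u v h => by
    rw [abs_sub_comm v.1, abs_sub_comm v.2]; exact h⟩
  loopless := ⟨fun u h => by simp at h⟩

/-- the open subgraph of a configuration -/
def openG (ω : Sym2 V → Bool) : SimpleGraph V where
  Adj u v := grid.Adj u v ∧ ω s(u, v) = true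
  symm := ⟨fun u v h => ⟨h.1.symm, by rw [Sym2.eq_swap]; exact h.2⟩⟩
  loopless := ⟨fun u h => grid.loopless.irrefl u h.1⟩

/-- the open cluster of the origin -/
def cluster (ω : Sym2 V → Bool) : Set V := {v | (openG ω).Reachable 0 v}

/-- there is an open self-avoiding path of length `n` from `v` all of whose edges are in `N` -/
def PathFrom (N : Set (Sym2 V)) (v : V) (n : ℕ) : Set (Sym2 V → Bool) :=
  {ω | ∃ γ : ℕ → V, γ 0 = v ∧ InjOn γ (Iic n) ∧
    ∀ i < n, grid.Adj (γ i) (γ (i+1)) ∧ s(γ i, γ (i+1)) ∈ N ∧ ω s(γ i, γ (i+1)) = true}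

/-- the pairs whose two members are not both in `R` -/
def Nset (R : Set V) : Set (Sym2 V) := {e | ¬ ∀ x ∈ e, x ∈ R}

lemma PathFrom.anti {N : Set (Sym2 V)} {v : V} {n n' : ℕ} (h : n' ≤ n) :
    PathFrom N v n ⊆ PathFrom N v n' := by
  rintro ω ⟨γ, h0, h1, h2⟩
  exact ⟨γ, h0, h1.mono (Iic_subset_Iic.2 h), fun i hi => h2 i (hi.trans_le h)⟩

lemma lip {γ : ℕ → V} {L : ℕ} (h : ∀ i < L, grid.Adj (γ i) (γ (i+1))) (i k : ℕ) (hk : i + k ≤ L) :
    |(γ i).1 - (γ (i+k)).1| + |(γ i).2 - (γ (i+k)).2| ≤ k := by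
  induction k with
  | zero => simp
  | succ k ih =>
    have h1 := ih (by omega)
    have h2 : |(γ (i+k)).1 - (γ (i+k+1)).1| + |(γ (i+k)).2 - (γ (i+k+1)).2| = 1 := h (i+k) (by omega)
    have h3 := abs_sub_le (γ i).1 (γ (i+k)).1 (γ (i+k+1)).1
    have h4 := abs_sub_le (γ i).2 (γ (i+k)).2 (γ (i+k+1)).2
    rw [← add_assoc]
    push_cast
    linarith

lemma exists_path {ω : Sym2 V → Bool} (hinf : (cluster ω).Infinite) (B : Set V) (hB : B.Finite) :
    ∃ (L : ℕ) (γ : ℕ → V), γ 0 = 0 ∧ γ L ∉ B ∧ InjOn γ (Iic L) ∧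
      ∀ i < L, grid.Adj (γ i) (γ (i+1)) ∧ ω s(γ i, γ (i+1)) = true := by
  obtain ⟨u, hu, huB⟩ := hinf.exists_notMem_finite hB
  obtain ⟨p, hp⟩ := SimpleGraph.Reachable.exists_isPath hu
  refine ⟨p.length, p.getVert, by simp, by simpa using huB, hp.getVert_injOn, fun i hi => ?_⟩
  exact p.adj_getVert_succ hi

theorem det {R : Set V} (h0 : (0:V) ∈ R) {lo hi : ℤ} (hlo : lo < 0) (hhi : 0 < hi) (h : ℕ)
    {a : ℤ} (hR : ∀ v ∈ R, lo < v.2 → v.2 < hi → |v.1| ≤ a) {ω : Sym2 V → Bool}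
    (hC : ∀ u v, u ∈ R → v ∈ R → grid.Adj u v →
      (hi ≤ u.2 ∧ u.2 ≤ hi + h ∨ lo - h ≤ u.2 ∧ u.2 ≤ lo) → ω s(u, v) = false)
    (hinf : (cluster ω).Infinite) :
    ∃ v ∈ R, lo < v.2 ∧ v.2 < hi ∧
      ω ∈ PathFrom (Nset R) v (h + (min (hi - v.2) (v.2 - lo)).toNat) := by
  classical
  have ha0 : 0 ≤ a := by simpa using hR 0 h0 hlo hhi
  set M : ℤ := a + 2 * (hi - lo) + h with hM
  obtain ⟨L, γ, hγ0, hγL, hinj, hadj⟩ := exists_path hinf (Icc (-M) M ×ˢ Icc (-M) M)
    ((finite_Icc _ _).prod (finite_Icc _ _))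
  have hlip := lip (γ := γ) (L := L) fun i hi => (hadj i hi).1
  -- the exit index
  obtain ⟨b, hbL, hbin, hbex⟩ : ∃ b ≤ L, (∀ i < b, lo - h < (γ i).2 ∧ (γ i).2 < hi + h) ∧
      (b = L ∨ hi + h ≤ (γ b).2 ∨ (γ b).2 ≤ lo - h) := by
    by_cases hex : ∃ i, i ≤ L ∧ ¬ (lo - h < (γ i).2 ∧ (γ i).2 < hi + h)
    · refine ⟨Nat.find hex, (Nat.find_spec hex).1, fun i hi => ?_, Or.inr ?_⟩
      · have := Nat.find_min hex hi
        by_contra hcon
        exact this ⟨hi.le.trans (Nat.find_spec hex).1, hcon⟩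
      · have := (Nat.find_spec hex).2
        omega
    · push Not at hex
      exact ⟨L, le_rfl, fun i hi => by have := hex i hi.le; omega, Or.inl rfl⟩
  have hb' : ∀ i ≤ b, lo - h ≤ (γ i).2 ∧ (γ i).2 ≤ hi + h := by
    intro i hib
    rcases Nat.lt_or_ge i b with h1 | h1
    · have := hbin i h1; omega
    · obtain rfl : i = b := by omega
      rcases Nat.eq_zero_or_pos i with h2 | h2
      · rw [h2, hγ0]; simp only [Prod.snd_zero]; omega
      · obtain ⟨j, rfl⟩ : ∃ j, i = j + 1 := ⟨i - 1, by omega⟩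
        have h3 := hbin j (by omega)
        have h4 := hlip j 1 (by omega)
        have h5 := abs_nonneg ((γ j).1 - (γ (j+1)).1)
        have h6 : |(γ j).2 - (γ (j+1)).2| ≤ 1 := by push_cast at h4; linarith
        rw [abs_le] at h6
        omega
  -- the last index at which an `R`-edge is used
  let P : ℕ → Prop := fun k => k = 0 ∨ (γ (k-1) ∈ R ∧ γ k ∈ R)
  set c := Nat.findGreatest P b with hc
  have hcb : c ≤ b := Nat.findGreatest_le b
  have hPc : P c := Nat.findGreatest_spec (P := P) (Nat.zero_le b) (Or.inl rfl)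
  have hgr : ∀ k, c < k → k ≤ b → ¬ P k := fun k h1 h2 =>
    Nat.findGreatest_is_greatest (hc ▸ h1) h2
  have hcR : γ c ∈ R ∧ lo < (γ c).2 ∧ (γ c).2 < hi := by
    rcases hPc with h1 | ⟨h1, h2⟩
    · rw [h1, hγ0]; exact ⟨h0, hlo, hhi⟩
    · rcases Nat.eq_zero_or_pos c with h3 | h3
      · rw [h3, hγ0]; exact ⟨h0, hlo, hhi⟩
      refine ⟨h2, ?_⟩
      have h4 := hadj (c-1) (by omega)
      rw [show c - 1 + 1 = c by omega] at h4
      have h5 := hb' c hcb
      by_contra hcon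
      have := hC (γ c) (γ (c-1)) h2 h1 h4.1.symm (by omega)
      rw [Sym2.eq_swap, h4.2] at this
      exact absurd this (by simp)
  obtain ⟨hcR, hclo, hchi⟩ := hcR
  refine ⟨γ c, hcR, hclo, hchi, ?_⟩
  have hlen : h + (min (hi - (γ c).2) ((γ c).2 - lo)).toNat ≤ b - c := by
    have h1 := hlip c (b - c) (by omega)
    rw [show c + (b - c) = b by omega] at h1
    have hx := abs_nonneg ((γ c).1 - (γ b).1)
    have hy := abs_nonneg ((γ c).2 - (γ b).2)
    rcases hbex with h2 | h2 | h2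
    · have h3 := hR _ hcR hclo hchi
      have h4 : γ b ∉ Icc (-M) M ×ˢ Icc (-M) M := by rw [h2]; exact hγL
      simp only [mem_prod, mem_Icc, not_and_or, not_le] at h4
      rw [abs_le] at h3
      have h5 := le_abs_self ((γ c).1 - (γ b).1)
      have h6 := neg_abs_le ((γ c).1 - (γ b).1)
      have h7 := le_abs_self ((γ c).2 - (γ b).2)
      have h8 := neg_abs_le ((γ c).2 - (γ b).2)
      omega
    · have h7 := le_abs_self ((γ c).2 - (γ b).2)
      have h8 := neg_abs_le ((γ c).2 - (γ b).2)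
      omega
    · have h7 := le_abs_self ((γ c).2 - (γ b).2)
      have h8 := neg_abs_le ((γ c).2 - (γ b).2)
      omega
  apply PathFrom.anti hlen
  refine ⟨fun i => γ (c + i), rfl, ?_, fun i hi => ?_⟩
  · intro i hi j hj hij
    have := hinj (show c + i ∈ Iic L by simp only [mem_Iic] at hi ⊢; omega)
      (show c + j ∈ Iic L by simp only [mem_Iic] at hj ⊢; omega) hij
    omega
  · have h1 := hadj (c + i) (by omega)
    refine ⟨h1.1, ?_, h1.2⟩
    intro hall
    refine hgr (c + i + 1) (by omega) (by omega) (Or.inr ⟨?_, ?_⟩)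
    · exact hall _ (by simp)
    · exact hall _ (by simp [add_assoc])

/-- the cluster is infinite only if there are arbitrarily long open paths from the origin -/
theorem det_hom {ω : Sym2 V → Bool} (hinf : (cluster ω).Infinite) (n : ℕ) :
    ω ∈ PathFrom univ 0 n := by
  obtain ⟨L, γ, hγ0, hγL, hinj, hadj⟩ := exists_path hinf (Icc (-n : ℤ) n ×ˢ Icc (-n : ℤ) n)
    ((finite_Icc _ _).prod (finite_Icc _ _))
  have hlip := lip (γ := γ) (L := L) (fun i hi => (hadj i hi).1) 0 L (by omega)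
  have hnL : n ≤ L := by
    rw [zero_add, hγ0] at hlip
    simp only [mem_prod, mem_Icc, not_and_or, not_le] at hγL
    simp only [Prod.fst_zero, Prod.snd_zero, zero_sub, abs_neg] at hlip
    have h5 := le_abs_self (γ L).1
    have h6 := neg_abs_le (γ L).1
    have h7 := le_abs_self (γ L).2
    have h8 := neg_abs_le (γ L).2
    omega
  apply PathFrom.anti hnL
  exact ⟨γ, hγ0, hinj, fun i hi => ⟨(hadj i hi).1, mem_univ _, (hadj i hi).2⟩⟩

end Pool.Agent.R951.Stack
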