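import Pool.Agent.R951.Stack.Bound

open MeasureTheory Set

namespace Pool.Agent.R951.Stack

/-- `Z(n)` for `n ≥ 0`: `Z(0) = 0`, `Z(n) = X_0 + 2 ∑_{i=1}^{n-1} X_i + X_n` -/
def Zpos (X : ℤ → ℕ) (n : ℕ) : ℤ :=
  if n = 0 then 0 else (X 0 : ℤ) + 2 * ∑ i ∈ Finset.Ico 1 n, (X i : ℤ) + X n

/-- the height of the centre of the `n`-th box;
`Z(-n) = -X_0 - 2 ∑_{i=1}^{n-1} X_{-i} - X_{-n}` -/
def ZZ (X : ℤ → ℕ) (n : ℤ) : ℤ :=
  if 0 ≤ n then Zpos X n.toNat else - Zpos (fun i => X (-i)) (-n).toNat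

/-- the box `B(a, r)` in `ℤ × ℤ` -/
def box (a : ℤ) (r : ℕ) : Set V := {v | |v.1| ≤ r ∧ a - r ≤ v.2 ∧ v.2 ≤ a + r}

/-- the region `R` of the Stack Model -/
def region (X : ℤ → ℕ) : Set V := ⋃ n : ℤ, box (ZZ X n) (X n)

/-- base height of box `n` -/
def tt (X : ℤ → ℕ) (n : ℕ) : ℤ := (X 0 : ℤ) + 2 * ∑ i ∈ Finset.Ico 1 n, (X i : ℤ)

lemma tt_mono (X : ℤ → ℕ) : Monotone (tt X) := by
  intro m n h
  unfold tt
  have := Finset.sum_le_sum_of_subset_of_nonneg (Finset.Ico_subset_Ico_right h : Finset.Ico 1 m ⊆ Finset.Ico 1 n)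
    (f := fun i : ℕ => (X i : ℤ)) (fun i _ _ => by positivity)
  linarith

lemma tt_nonneg (X : ℤ → ℕ) (n : ℕ) : 0 ≤ tt X n := by
  unfold tt
  positivity

lemma tt_ge (X : ℤ → ℕ) (n : ℕ) : (X 0 : ℤ) ≤ tt X n := by
  unfold tt
  have : (0:ℤ) ≤ ∑ i ∈ Finset.Ico 1 n, (X i : ℤ) := by positivity
  linarith

lemma tt_succ (X : ℤ → ℕ) {n : ℕ} (hn : 1 ≤ n) : tt X (n+1) = tt X n + 2 * X n := by
  unfold tt
  rw [Finset.sum_Ico_succ_top hn]; ring

lemma Zpos_eq (X : ℤ → ℕ) {n : ℕ} (hn : 1 ≤ n) : Zpos X n = tt X n + X n := by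
  unfold Zpos tt
  rw [if_neg (by omega)]

lemma mem_box_pos (X : ℤ → ℕ) {n : ℕ} (hn : 1 ≤ n) (v : V) :
    v ∈ box (ZZ X n) (X n) ↔ |v.1| ≤ X n ∧ tt X n ≤ v.2 ∧ v.2 ≤ tt X (n+1) := by
  unfold box ZZ
  rw [if_pos (by positivity), Int.toNat_natCast, Zpos_eq X hn, tt_succ X hn]
  simp only [mem_ofPred_eq]
  constructor
  · rintro ⟨h1, h2, h3⟩; exact ⟨h1, by omega, by omega⟩
  · rintro ⟨h1, h2, h3⟩; exact ⟨h1, by omega, by omega⟩

lemma mem_box_neg (X : ℤ → ℕ) {n : ℕ} (hn : 1 ≤ n) (v : V) :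
    v ∈ box (ZZ X (-n)) (X (-n)) ↔ |v.1| ≤ X (-n) ∧
      tt (fun i => X (-i)) n ≤ -v.2 ∧ -v.2 ≤ tt (fun i => X (-i)) (n+1) := by
  unfold box ZZ
  rw [if_neg (by omega), neg_neg, Int.toNat_natCast, Zpos_eq _ hn, tt_succ _ hn]
  simp only [mem_ofPred_eq]
  constructor
  · rintro ⟨h1, h2, h3⟩; exact ⟨h1, by omega, by omega⟩
  · rintro ⟨h1, h2, h3⟩; exact ⟨h1, by omega, by omega⟩

lemma mem_box_zero (X : ℤ → ℕ) (v : V) :
    v ∈ box (ZZ X 0) (X 0) ↔ |v.1| ≤ X 0 ∧ -(X 0 : ℤ) ≤ v.2 ∧ v.2 ≤ X 0 := by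
  unfold box ZZ Zpos
  simp

lemma mem_region (X : ℤ → ℕ) (v : V) : v ∈ region X ↔
    (|v.1| ≤ X 0 ∧ -(X 0 : ℤ) ≤ v.2 ∧ v.2 ≤ X 0) ∨
    (∃ n : ℕ, 1 ≤ n ∧ |v.1| ≤ X n ∧ tt X n ≤ v.2 ∧ v.2 ≤ tt X (n+1)) ∨
    (∃ n : ℕ, 1 ≤ n ∧ |v.1| ≤ X (-n) ∧ tt (fun i => X (-i)) n ≤ -v.2 ∧
      -v.2 ≤ tt (fun i => X (-i)) (n+1)) := by
  unfold region
  rw [mem_iUnion]
  constructor
  · rintro ⟨n, hn⟩
    rcases lt_trichotomy n 0 with h | h | h
    · right; right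
      obtain ⟨k, rfl⟩ : ∃ k : ℕ, n = -(k:ℤ) := ⟨(-n).toNat, by omega⟩
      have hk : 1 ≤ k := by omega
      exact ⟨k, hk, (mem_box_neg X hk v).1 hn⟩
    · left; rw [h] at hn; exact (mem_box_zero X v).1 hn
    · right; left
      obtain ⟨k, rfl⟩ : ∃ k : ℕ, n = (k:ℤ) := ⟨n.toNat, by omega⟩
      have hk : 1 ≤ k := by omega
      exact ⟨k, hk, (mem_box_pos X hk v).1 hn⟩
  · rintro (h | ⟨n, hn, h⟩ | ⟨n, hn, h⟩)
    · exact ⟨0, (mem_box_zero X v).2 h⟩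
    · exact ⟨n, (mem_box_pos X hn v).2 h⟩
    · exact ⟨-n, (mem_box_neg X hn v).2 h⟩

lemma mirror (X : ℤ → ℕ) (v : V) : v ∈ region (fun i => X (-i)) ↔ ((v.1, -v.2) : V) ∈ region X := by
  rw [mem_region, mem_region]
  simp only [neg_neg, neg_zero]
  constructor
  · rintro (h | h | h)
    · left; exact ⟨h.1, by omega, by omega⟩
    · right; right; exact h
    · right; left; exact h
  · rintro (h | h | h)
    · left; exact ⟨h.1, by omega, by omega⟩
    · right; right; exact h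
    · right; left; exact h

/-- the boxes `0, ..., i0 - 1` have radius at most `a`, the next `l` boxes have radius one -/
def Run (X : ℤ → ℕ) (a i0 l : ℕ) : Prop :=
  1 ≤ i0 ∧ (∀ i : ℕ, i < i0 → X i ≤ a) ∧ ∀ i : ℕ, i0 ≤ i → i < i0 + l → X i = 1

variable {X : ℤ → ℕ} {a i0 l : ℕ}

lemma Run.tt (h : Run X a i0 l) (j : ℕ) (hj : j ≤ l) : tt X (i0 + j) = tt X i0 + 2 * j := by
  induction j with
  | zero => simp
  | succ j ih =>
    rw [← add_assoc, tt_succ X (by have := h.1; omega), ih (by omega),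
      h.2.2 (i0 + j) (by omega) (by omega)]
    push_cast; ring

lemma Run.le (h : Run X a i0 l) (ha : 1 ≤ a) {i : ℕ} (hi : i < i0 + l) : X i ≤ a := by
  rcases Nat.lt_or_ge i i0 with h1 | h1
  · exact h.2.1 i h1
  · rw [h.2.2 i h1 hi]; exact ha

/-- the box containing a point of small height has radius at most `a` -/
lemma Run.box (h : Run X a i0 l) (ha : 1 ≤ a) {n : ℕ} {y : ℤ}
    (h1 : Pool.Agent.R951.Stack.tt X n ≤ y) (h2 : y < Pool.Agent.R951.Stack.tt X i0 + 2 * l) :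
    X n ≤ a := by
  apply h.le ha
  by_contra hcon
  have := tt_mono X (not_lt.1 hcon)
  rw [h.tt l le_rfl] at this
  omega

lemma Run.width (h : Run X a i0 l) {v : V} (hv : v ∈ region X)
    (h1 : Pool.Agent.R951.Stack.tt X i0 < v.2)
    (h2 : v.2 < Pool.Agent.R951.Stack.tt X i0 + 2 * l) : |v.1| ≤ 1 := by
  rw [mem_region] at hv
  rcases hv with ⟨_, _, h3⟩ | ⟨n, hn, h3, h4, h5⟩ | ⟨n, hn, h3, h4, h5⟩
  · have := tt_ge X i0; omega
  · have hn1 : n < i0 + l := by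
      by_contra hcon
      have := tt_mono X (not_lt.1 hcon)
      rw [h.tt l le_rfl] at this
      omega
    have hn2 : i0 ≤ n := by
      by_contra hcon
      have := tt_mono X (show n + 1 ≤ i0 by omega)
      omega
    rw [h.2.2 n hn2 hn1] at h3
    exact h3
  · have := tt_nonneg X i0
    have := tt_nonneg (fun i => X (-i)) n
    omega

lemma Run.mem (h : Run X a i0 l) {v : V} (hv : |v.1| ≤ 1)
    (h1 : Pool.Agent.R951.Stack.tt X i0 < v.2)
    (h2 : v.2 < Pool.Agent.R951.Stack.tt X i0 + 2 * l) : v ∈ region X := by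
  rw [mem_region]
  right; left
  obtain ⟨d, hd⟩ : ∃ d : ℕ, v.2 = Pool.Agent.R951.Stack.tt X i0 + d :=
    ⟨(v.2 - Pool.Agent.R951.Stack.tt X i0).toNat, by omega⟩
  have hdl : d < 2 * l := by omega
  have e1 := h.tt (d / 2) (by omega)
  have e2 := h.tt (d / 2 + 1) (by omega)
  refine ⟨i0 + d / 2, by have := h.1; omega, ?_, ?_, ?_⟩
  · rw [h.2.2 (i0 + d / 2) (by omega) (by omega)]; exact_mod_cast hv
  · rw [e1, hd]; push_cast; omega
  · rw [add_assoc, e2, hd]; push_cast; omega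

/-- probability of percolation at the origin in the environment `X` -/
noncomputable def theta (X : ℤ → ℕ) (p q : unitInterval) : ENNReal :=
  Perc (rr (region X) p q) {ω | (cluster ω).Infinite}

theorem env_bound (g h m : ℕ) (hg1 : 1 ≤ g) (ha : 1 ≤ a) (hag : 2 * a + 1 ≤ 2 ^ g)
    (hl : l = g + 1 + m * (h + 2)) (h1 : Run X a i0 l) {i0' : ℕ}
    (h2 : Run (fun i => X (-i)) a i0' l) {p q : unitInterval} (hp : (p:ℝ) ≤ 1/8) :
    theta X p q ≤ (1 - ENNReal.ofReal (1 - q) ^ (36 * (h + 3) ^ 2)) ^ m + 14 * 2⁻¹ ^ h := by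
  have t1 := tt_nonneg X i0
  have t2 := tt_nonneg (fun i => X (-i)) i0'
  have hlz : (l:ℤ) = g + 1 + m * (h + 2) := by rw [hl]; push_cast; ring
  have e1 : hij (tt X i0 + g + 1) h m = tt X i0 + l := by unfold hij; rw [hlz]; ring
  have e2 : loj (-(tt (fun i => X (-i)) i0' + g + 1)) h m = -(tt (fun i => X (-i)) i0' + l) := by
    unfold loj; rw [hlz]; ring
  have hl1 : 1 ≤ l := by omega
  refine slab_bound (R := region X) (lo0 := -(tt (fun i => X (-i)) i0' + g + 1))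
    (hi0 := tt X i0 + g + 1) ?_ (by omega) (by omega) a g h m hg1 hag ?_ ?_ hp
  · rw [mem_region]; left; simp
  · intro v hv hv1 hv2
    rw [e1] at hv2
    rw [e2] at hv1
    rw [mem_region] at hv
    rcases hv with ⟨h3, _, _⟩ | ⟨n, hn, h3, h4, h5⟩ | ⟨n, hn, h3, h4, h5⟩
    · have := h1.le ha (i := 0) (by have := h1.1; omega)
      push_cast at this
      exact h3.trans (by exact_mod_cast this)
    · exact h3.trans (by exact_mod_cast h1.box ha h4 (by omega))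
    · exact h3.trans (by exact_mod_cast h2.box ha h4 (by omega))
  · intro v hv
    rw [e1, e2] at hv
    rcases hv with hv | hv
    · constructor
      · intro hvR; exact h1.width hvR (by omega) (by omega)
      · intro hv1; exact h1.mem hv1 (by omega) (by omega)
    · have hm := mirror X (v.1, -v.2)
      simp only [neg_neg, Prod.mk.eta] at hm
      rw [← hm]
      constructor
      · intro hvR
        exact h2.width (v := (v.1, -v.2)) hvR (by simp only; omega) (by simp only; omega)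
      · intro hv1
        exact h2.mem (v := (v.1, -v.2)) hv1 (by simp only; omega) (by simp only; omega)

end Pool.Agent.R951.Stack
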