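import Pool.Agent.R951.Stack.Env

open MeasureTheory Set Filter Topology

namespace Pool.Agent.R951.Stack

/-- the law of `f(Y)` where `P(Y = n) = 2^{-(n+1)}` -/
noncomputable def law (f : ℕ → ℕ) : Measure ℕ :=
  Measure.sum fun n => (2⁻¹ : ENNReal) ^ (n+1) • Measure.dirac (f n)

lemma tail_sum (N : ℕ) : ∑' n : ℕ, (2⁻¹ : ENNReal) ^ (n + N + 1) = 2⁻¹ ^ N := by
  have : ∀ n : ℕ, (2⁻¹ : ENNReal) ^ (n + N + 1) = 2⁻¹ ^ (N+1) * 2⁻¹ ^ n := fun n => by
    rw [← pow_add]; congr 1; ring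
  simp only [this]
  rw [ENNReal.tsum_mul_left, ENNReal.tsum_geometric, ENNReal.one_sub_inv_two, inv_inv, pow_succ,
    mul_assoc, ENNReal.inv_mul_cancel (by norm_num) (by norm_num), mul_one]

lemma law_apply (f : ℕ → ℕ) (A : Set ℕ) :
    law f A = ∑' n, (2⁻¹ : ENNReal) ^ (n+1) * A.indicator 1 (f n) := by
  unfold law
  rw [Measure.sum_apply _ (MeasurableSet.of_discrete)]
  congr 1
  funext n
  rw [Measure.smul_apply, Measure.dirac_apply, smul_eq_mul]

instance (f : ℕ → ℕ) : IsProbabilityMeasure (law f) := by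
  constructor
  rw [law_apply]
  simpa using tail_sum 0

lemma law_zero {f : ℕ → ℕ} (hf : ∀ n, 1 ≤ f n) : law f {0} = 0 := by
  rw [law_apply]
  simp only [ENNReal.tsum_eq_zero]
  intro n
  rw [indicator_of_notMem, mul_zero]
  have := hf n
  simp only [mem_singleton_iff]; omega

lemma law_one {f : ℕ → ℕ} (hf : f 0 = 1) : 2⁻¹ ≤ law f {1} := by
  rw [law_apply]
  refine le_trans ?_ (ENNReal.le_tsum 0)
  simp [hf]

lemma law_tail {f : ℕ → ℕ} {a N : ℕ} (h : ∀ n < N, f n ≤ a) : law f {x | a < x} ≤ 2⁻¹ ^ N := by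
  rw [law_apply, ← tail_sum N]
  have h1 : ∀ n : ℕ, (2⁻¹ : ENNReal) ^ (n+1) * ({x : ℕ | a < x}).indicator 1 (f n) ≤
      if N ≤ n then 2⁻¹ ^ (n+1) else 0 := by
    intro n
    split_ifs with hn
    · refine mul_le_of_le_one_right' ?_
      unfold indicator
      split_ifs <;> simp
    · rw [indicator_of_notMem, mul_zero]
      simp only [mem_ofPred_eq, not_lt]
      exact h n (by omega)
  refine (ENNReal.tsum_le_tsum h1).trans ?_
  have hs := Summable.sum_add_tsum_nat_add' (k := N)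
    (f := fun n : ℕ => if N ≤ n then (2⁻¹ : ENNReal) ^ (n+1) else 0) ENNReal.summable
  have : ∑ i ∈ Finset.range N, (if N ≤ i then (2⁻¹ : ENNReal) ^ (i+1) else 0) = 0 := by
    refine Finset.sum_eq_zero fun i hi => ?_
    rw [if_neg (by have := Finset.mem_range.1 hi; omega)]
  rw [← hs, this, zero_add]
  refine ENNReal.tsum_le_tsum fun n => ?_
  rw [if_pos (by omega)]

lemma law_lintegral (f : ℕ → ℕ) (G : ℕ → ENNReal) :
    ∫⁻ x, G x ∂(law f) = ∑' n, (2⁻¹ : ENNReal) ^ (n+1) * G (f n) := by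
  unfold law
  rw [lintegral_sum_measure]
  congr 1
  funext n
  rw [lintegral_smul_measure, lintegral_dirac, smul_eq_mul]

open Classical in
/-- the radius as a function of the geometric variable: `2^(2^n)` for `n` in the range of the
sparse sequence `r`, and `1` otherwise -/
noncomputable def ff (r : ℕ → ℕ) (n : ℕ) : ℕ := if n ∈ range r then 2 ^ (2 ^ n) else 1

lemma ff_pos (r : ℕ → ℕ) (n : ℕ) : 1 ≤ ff r n := by
  unfold ff; split_ifs
  · exact Nat.one_le_two_pow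
  · exact le_rfl

lemma log_infinite {r : ℕ → ℕ} (hr : StrictMono r) :
    ∫⁻ x, ENNReal.ofReal (Real.log x) ∂(law (ff r)) = ⊤ := by
  rw [law_lintegral]
  have h1 : ∀ k : ℕ, (2⁻¹ : ENNReal) ^ (r k + 1) * ENNReal.ofReal (Real.log (ff r (r k))) =
      ENNReal.ofReal (Real.log 2 / 2) := by
    intro k
    have : ff r (r k) = 2 ^ (2 ^ (r k)) := by
      unfold ff; rw [if_pos (mem_range_self k)]
    rw [this]
    push_cast
    rw [Real.log_pow]
    have h2 : (2⁻¹ : ENNReal) ^ (r k + 1) = ENNReal.ofReal ((1/2)^(r k + 1)) := by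
      rw [ENNReal.ofReal_pow (by norm_num), one_div, ENNReal.ofReal_inv_of_pos (by norm_num)]
      norm_num
    rw [h2, ← ENNReal.ofReal_mul (by positivity)]
    congr 1
    push_cast
    rw [pow_succ, one_div, inv_pow]
    field_simp
  have h2 : ∑' k : ℕ, (2⁻¹ : ENNReal) ^ (r k + 1) * ENNReal.ofReal (Real.log (ff r (r k))) = ⊤ := by
    simp only [h1]
    apply ENNReal.tsum_const_eq_top_of_ne_zero
    simp only [ne_eq, ENNReal.ofReal_eq_zero, not_le]
    have := Real.log_pos (show (1:ℝ) < 2 by norm_num)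
    positivity
  have h3 := ENNReal.tsum_comp_le_tsum_of_injective hr.injective
    (fun n : ℕ => (2⁻¹ : ENNReal) ^ (n + 1) * ENNReal.ofReal (Real.log (ff r n)))
  rw [h2] at h3
  exact top_le_iff.1 h3

/-! ### parameters -/

lemma exists_pow_le {x y : ENNReal} (hx : x < 1) (hy : y ≠ 0) : ∃ m : ℕ, x ^ m ≤ y := by
  have := ENNReal.tendsto_pow_atTop_nhds_zero_of_lt_one hx
  have h2 := this.eventually (Iic_mem_nhds (pos_iff_ne_zero.2 hy))
  exact h2.exists

lemma one_sub_pow_lt {x : ENNReal} (hx : x ≠ 0) (n : ℕ) : 1 - x ^ n < 1 :=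
  ENNReal.sub_lt_self ENNReal.one_ne_top one_ne_zero (pow_ne_zero n hx)

lemma kinv_ne (k : ℕ) : ((k:ENNReal) + 1)⁻¹ ≠ 0 := by
  rw [ne_eq, ENNReal.inv_eq_zero]
  exact_mod_cast ENNReal.natCast_ne_top (k+1)

/-- number of slabs at scale `k` -/
noncomputable def mk (k : ℕ) : ℕ :=
  (exists_pow_le (one_sub_pow_lt (kinv_ne k) (36 * (k + 3) ^ 2)) (kinv_ne k)).choose

lemma mk_spec (k : ℕ) :
    (1 - (((k:ENNReal) + 1)⁻¹) ^ (36 * (k + 3) ^ 2)) ^ (mk k) ≤ ((k:ENNReal) + 1)⁻¹ :=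
  (exists_pow_le (one_sub_pow_lt (kinv_ne k) (36 * (k + 3) ^ 2)) (kinv_ne k)).choose_spec

/-- length of a run -/
noncomputable def lk (k a : ℕ) : ℕ := (2 * a + 1) + 1 + mk k * (k + 2)

/-- number of blocks -/
noncomputable def Mk (k a : ℕ) : ℕ :=
  (exists_pow_le (one_sub_pow_lt (x := 2⁻¹) (by simp) (lk k a)) (kinv_ne k)).choose

lemma Mk_spec (k a : ℕ) : (1 - (2⁻¹ : ENNReal) ^ (lk k a)) ^ (Mk k a) ≤ ((k:ENNReal) + 1)⁻¹ :=
  (exists_pow_le (one_sub_pow_lt (x := 2⁻¹) (by simp) (lk k a)) (kinv_ne k)).choose_spec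

noncomputable def Nk (k a : ℕ) : ℕ := lk k a * Mk k a + 1

lemma exists_R (k N : ℕ) : ∃ R : ℕ, (2 * N + 1 : ENNReal) * 2⁻¹ ^ R ≤ ((k:ENNReal) + 1)⁻¹ := by
  have h0 : (2 * N + 1 : ENNReal) ≠ ⊤ := by
    have : (2 * N + 1 : ENNReal) = ((2 * N + 1 : ℕ) : ENNReal) := by push_cast; ring
    rw [this]; exact ENNReal.natCast_ne_top _
  have h1 : Tendsto (fun R : ℕ => (2 * N + 1 : ENNReal) * 2⁻¹ ^ R) atTop
      (𝓝 ((2 * N + 1 : ENNReal) * 0)) :=
    ENNReal.Tendsto.const_mul (ENNReal.tendsto_pow_atTop_nhds_zero_of_lt_one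
      (by rw [ENNReal.inv_lt_one]; norm_num)) (Or.inr h0)
  rw [mul_zero] at h1
  exact (h1.eventually (Iic_mem_nhds (pos_iff_ne_zero.2 (kinv_ne k)))).exists

noncomputable def Rk (k a : ℕ) : ℕ := (exists_R k (Nk k a)).choose

lemma Rk_spec (k a : ℕ) : (2 * (Nk k a : ℕ) + 1 : ENNReal) * 2⁻¹ ^ (Rk k a) ≤
    ((k:ENNReal) + 1)⁻¹ := (exists_R k (Nk k a)).choose_spec

/-- the sparse sequence -/
noncomputable def rseq : ℕ → ℕ
  | 0 => 1
  | (k+1) => Rk k (2 ^ (2 ^ rseq k)) + 2 ^ (2 ^ rseq k)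

noncomputable def ak (k : ℕ) : ℕ := 2 ^ (2 ^ rseq k)

lemma rseq_lt_ak (k : ℕ) : rseq k < ak k := by
  unfold ak
  exact (Nat.lt_two_pow_self).trans Nat.lt_two_pow_self

lemma rseq_mono : StrictMono rseq := by
  refine strictMono_nat_of_lt_succ fun k => ?_
  have : rseq (k+1) = Rk k (ak k) + ak k := rfl
  rw [this]
  have := rseq_lt_ak k
  omega

lemma Rk_le (k : ℕ) : Rk k (ak k) ≤ rseq (k+1) := by
  have : rseq (k+1) = Rk k (ak k) + ak k := rfl
  omega

lemma ak_pos (k : ℕ) : 1 ≤ ak k := Nat.one_le_two_pow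

lemma ff_le (k n : ℕ) (hn : n < rseq (k+1)) : ff rseq n ≤ ak k := by
  unfold ff
  split_ifs with h
  · obtain ⟨j, rfl⟩ := h
    have hj : j ≤ k := by
      have := rseq_mono.lt_iff_lt.1 hn
      omega
    unfold ak
    have := rseq_mono.monotone hj
    exact Nat.pow_le_pow_right (by norm_num) (Nat.pow_le_pow_right (by norm_num) this)
  · exact ak_pos k

/-- the law of the radii -/
noncomputable def rho : Measure ℕ := law (ff rseq)

instance : IsProbabilityMeasure rho := by unfold rho; infer_instance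

/-- the law of the environment -/
noncomputable def envLaw : Measure (ℤ → ℕ) := Measure.infinitePi fun _ => rho

instance : IsProbabilityMeasure envLaw := by unfold envLaw; infer_instance

lemma rho_tail (k : ℕ) : rho {x | ak k < x} ≤ 2⁻¹ ^ (rseq (k+1)) :=
  law_tail fun n hn => ff_le k n hn

lemma rho_one : 2⁻¹ ≤ rho {1} := by
  refine law_one ?_
  unfold ff
  rw [if_neg]
  rintro ⟨j, hj⟩
  have : rseq 0 ≤ rseq j := rseq_mono.monotone (Nat.zero_le j)
  have h1 : rseq 0 = 1 := rfl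
  omega

/-- positive blocks of indices -/
noncomputable def Bp (l j : ℕ) : Finset ℤ := Finset.Ico (1 + j * l : ℤ) (1 + j * l + l)
/-- negative blocks of indices -/
noncomputable def Bm (l j : ℕ) : Finset ℤ := (Bp l j).image fun i => -i

lemma Bp_disj (l : ℕ) {i j : ℕ} (h : i ≠ j) : Disjoint (Bp l i) (Bp l j) := by
  rw [Finset.disjoint_left]
  intro x h1 h2
  simp only [Bp, Finset.mem_Ico] at h1 h2
  rcases Nat.lt_or_gt_of_ne h with hl | hl
  · have : (i:ℤ) + 1 ≤ j := by exact_mod_cast hl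
    nlinarith
  · have : (j:ℤ) + 1 ≤ i := by exact_mod_cast hl
    nlinarith

lemma Bm_disj (l : ℕ) {i j : ℕ} (h : i ≠ j) : Disjoint (Bm l i) (Bm l j) := by
  unfold Bm
  rw [Finset.disjoint_image (neg_injective)]
  exact Bp_disj l h

lemma Bp_card (l j : ℕ) : (Bp l j).card = l := by
  simp [Bp]

lemma Bm_card (l j : ℕ) : (Bm l j).card = l := by
  unfold Bm
  rw [Finset.card_image_of_injective _ neg_injective, Bp_card]

/-- the bad environments at scale `k` -/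
def Bad (k : ℕ) : Set (ℤ → ℕ) :=
  (⋃ i ∈ Finset.Icc (-(Nk k (ak k)) : ℤ) (Nk k (ak k)), {X | ak k < X i}) ∪
    ((⋂ j ∈ Finset.range (Mk k (ak k)), {X : ℤ → ℕ | ∀ i ∈ Bp (lk k (ak k)) j, X i ∈ ({1} : Set ℕ)}ᶜ) ∪
      (⋂ j ∈ Finset.range (Mk k (ak k)), {X : ℤ → ℕ | ∀ i ∈ Bm (lk k (ak k)) j, X i ∈ ({1} : Set ℕ)}ᶜ))

lemma no_run (l M : ℕ) (B : ℕ → Finset ℤ) (hB : ∀ i j, i ≠ j → Disjoint (B i) (B j))
    (hc : ∀ j, (B j).card = l) :
    envLaw (⋂ j ∈ Finset.range M, {X : ℤ → ℕ | ∀ i ∈ B j, X i ∈ ({1} : Set ℕ)}ᶜ) ≤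
      (1 - 2⁻¹ ^ l) ^ M := by
  refine blocks (fun _ : ℤ => rho) B hB (fun j => {X : ℤ → ℕ | ∀ i ∈ B j, X i ∈ ({1} : Set ℕ)})
    (fun j x y hxy hx e he => by rw [← hxy e he]; exact hx e he) _ (fun j => ?_) M
  rw [cyl, Finset.prod_const, hc]
  exact pow_le_pow_left' rho_one l

lemma Bad_prob (k : ℕ) : envLaw (Bad k) ≤ 3 * ((k:ENNReal) + 1)⁻¹ := by
  have h1 : envLaw (⋃ i ∈ Finset.Icc (-(Nk k (ak k)) : ℤ) (Nk k (ak k)), {X | ak k < X i}) ≤
      ((k:ENNReal) + 1)⁻¹ := by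
    calc envLaw (⋃ i ∈ Finset.Icc (-(Nk k (ak k)) : ℤ) (Nk k (ak k)), {X | ak k < X i})
        ≤ ∑ i ∈ Finset.Icc (-(Nk k (ak k)) : ℤ) (Nk k (ak k)), envLaw {X | ak k < X i} :=
          measure_biUnion_finset_le _ _
      _ ≤ ∑ _i ∈ Finset.Icc (-(Nk k (ak k)) : ℤ) (Nk k (ak k)), 2⁻¹ ^ (rseq (k+1)) := by
          refine Finset.sum_le_sum fun i _ => ?_
          have e : {X : ℤ → ℕ | ak k < X i} = {X | ∀ j ∈ ({i} : Finset ℤ), X j ∈ {x : ℕ | ak k < x}} := by
            ext X; simp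
          rw [e]
          unfold envLaw
          rw [cyl, Finset.prod_singleton]
          exact rho_tail k
      _ = (2 * (Nk k (ak k) : ℕ) + 1 : ENNReal) * 2⁻¹ ^ (rseq (k+1)) := by
          rw [Finset.sum_const, Int.card_Icc, nsmul_eq_mul]
          congr 1
          have : ((Nk k (ak k) : ℤ) + 1 - -(Nk k (ak k) : ℤ)).toNat = 2 * Nk k (ak k) + 1 := by omega
          rw [this]; push_cast; ring
      _ ≤ (2 * (Nk k (ak k) : ℕ) + 1 : ENNReal) * 2⁻¹ ^ (Rk k (ak k)) := by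
          exact mul_le_mul' le_rfl (pow_le_pow_of_le_one (zero_le)
            (ENNReal.inv_le_one.2 (by norm_num : (1:ENNReal) ≤ 2)) (Rk_le k))
      _ ≤ _ := Rk_spec k (ak k)
  have h2 := (no_run (lk k (ak k)) (Mk k (ak k)) (Bp (lk k (ak k))) (fun i j h => Bp_disj _ h)
    (Bp_card _)).trans (Mk_spec k (ak k))
  have h3 := (no_run (lk k (ak k)) (Mk k (ak k)) (Bm (lk k (ak k))) (fun i j h => Bm_disj _ h)
    (Bm_card _)).trans (Mk_spec k (ak k))
  calc envLaw (Bad k) ≤ ((k:ENNReal) + 1)⁻¹ + (((k:ENNReal) + 1)⁻¹ + ((k:ENNReal) + 1)⁻¹) :=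
        (measure_union_le _ _).trans (add_le_add h1 ((measure_union_le _ _).trans (add_le_add h2 h3)))
    _ = 3 * ((k:ENNReal) + 1)⁻¹ := by ring

/-- a good environment at scale `k` has runs on both sides -/
lemma good_run {k : ℕ} {X : ℤ → ℕ} (hX : X ∉ Bad k) :
    (∃ i0, Run X (ak k) i0 (lk k (ak k))) ∧
      ∃ i0, Run (fun i => X (-i)) (ak k) i0 (lk k (ak k)) := by
  unfold Bad at hX
  simp only [mem_union, not_or, mem_iUnion, mem_iInter, not_exists, not_forall,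
    mem_compl_iff, not_not, mem_ofPred_eq, not_lt, Finset.mem_Icc, Finset.mem_range] at hX
  obtain ⟨h1, ⟨j, hj, h2⟩, ⟨j', hj', h3⟩⟩ := hX
  set l := lk k (ak k) with hl
  have hN : Nk k (ak k) = l * Mk k (ak k) + 1 := rfl
  constructor
  · refine ⟨1 + j * l, by omega, fun i hi => ?_, fun i hi1 hi2 => ?_⟩
    · refine h1 i ⟨by have : (0:ℤ) ≤ i := by positivity
                      have : (0:ℤ) ≤ Nk k (ak k) := by positivity
                      omega, ?_⟩ |>.trans le_rfl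
      have : j * l ≤ Mk k (ak k) * l := Nat.mul_le_mul_right l hj.le
      rw [hN]
      have e : l * Mk k (ak k) = Mk k (ak k) * l := mul_comm _ _
      push_cast
      have : (i:ℤ) < 1 + j * l := by exact_mod_cast hi
      nlinarith
    · exact h2 i (by
        simp only [Bp, Finset.mem_Ico]
        constructor
        · exact_mod_cast hi1
        · exact_mod_cast hi2)
  · refine ⟨1 + j' * l, by omega, fun i hi => ?_, fun i hi1 hi2 => ?_⟩
    · refine h1 (-i) ⟨?_, by have : (0:ℤ) ≤ i := by positivity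
                             have : (0:ℤ) ≤ Nk k (ak k) := by positivity
                             omega⟩ |>.trans le_rfl
      have : j' * l ≤ Mk k (ak k) * l := Nat.mul_le_mul_right l hj'.le
      rw [hN]
      have e : l * Mk k (ak k) = Mk k (ak k) * l := mul_comm _ _
      push_cast
      have : (i:ℤ) < 1 + j' * l := by exact_mod_cast hi
      nlinarith
    · exact h3 (-i) (by
        simp only [Bm, Bp, Finset.mem_image, Finset.mem_Ico]
        refine ⟨i, ⟨?_, ?_⟩, rfl⟩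
        · exact_mod_cast hi1
        · exact_mod_cast hi2)

lemma ae_good : ∀ᵐ X ∂envLaw, ∃ᶠ k in atTop, X ∉ Bad k := by
  have h : ∀ K : ℕ, envLaw (⋂ k ∈ Ici K, Bad k) = 0 := by
    intro K
    have h1 : ∀ k ≥ K, envLaw (⋂ k ∈ Ici K, Bad k) ≤ 3 * ((k:ENNReal) + 1)⁻¹ := fun k hk =>
      (measure_mono (biInter_subset_of_mem hk)).trans (Bad_prob k)
    have h2 : Tendsto (fun k : ℕ => 3 * ((k:ENNReal) + 1)⁻¹) atTop (𝓝 (3 * 0)) := by
      refine ENNReal.Tendsto.const_mul ?_ (Or.inr (by norm_num))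
      have := (ENNReal.tendsto_inv_nat_nhds_zero).comp (tendsto_add_atTop_nat 1)
      refine this.congr fun k => ?_
      simp
    rw [mul_zero] at h2
    exact le_antisymm (ge_of_tendsto h2 ((eventually_ge_atTop K).mono h1)) (zero_le)
  have h3 : envLaw (⋃ K : ℕ, ⋂ k ∈ Ici K, Bad k) = 0 := measure_iUnion_null h
  rw [ae_iff]
  refine measure_mono_null ?_ h3
  intro X hX
  simp only [mem_ofPred_eq, not_frequently, not_not, eventually_atTop] at hX
  obtain ⟨K, hK⟩ := hX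
  exact mem_iUnion.2 ⟨K, mem_iInter₂.2 fun k hk => hK k hk⟩

theorem main {p q : unitInterval} (hp : (p:ℝ) ≤ 1/8) (hq : (q:ℝ) < 1) :
    ∀ᵐ X ∂envLaw, theta X p q = 0 := by
  filter_upwards [ae_good] with X hX
  -- the bounds at good scales
  have hb : ∀ k : ℕ, X ∉ Bad k → ((k:ENNReal) + 1)⁻¹ ≤ ENNReal.ofReal (1 - q) →
      theta X p q ≤ ((k:ENNReal) + 1)⁻¹ + 14 * 2⁻¹ ^ k := by
    intro k hk hkq
    obtain ⟨⟨i0, h1⟩, ⟨i0', h2⟩⟩ := good_run hk
    refine (env_bound (2 * ak k + 1) k (mk k) (by omega) (ak_pos k) (Nat.lt_two_pow_self).le rfl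
      h1 h2 hp).trans ?_
    gcongr
    refine le_trans ?_ (mk_spec k)
    gcongr
  have hev : ∀ᶠ k : ℕ in atTop, ((k:ENNReal) + 1)⁻¹ ≤ ENNReal.ofReal (1 - q) := by
    have h2 : Tendsto (fun k : ℕ => ((k:ENNReal) + 1)⁻¹) atTop (𝓝 0) := by
      have := (ENNReal.tendsto_inv_nat_nhds_zero).comp (tendsto_add_atTop_nat 1)
      refine this.congr fun k => ?_
      simp
    exact h2.eventually (Iic_mem_nhds (ENNReal.ofReal_pos.2 (by linarith)))
  have hlim : Tendsto (fun k : ℕ => ((k:ENNReal) + 1)⁻¹ + 14 * 2⁻¹ ^ k) atTop (𝓝 0) := by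
    have h2 : Tendsto (fun k : ℕ => ((k:ENNReal) + 1)⁻¹) atTop (𝓝 0) := by
      have := (ENNReal.tendsto_inv_nat_nhds_zero).comp (tendsto_add_atTop_nat 1)
      refine this.congr fun k => ?_
      simp
    have h3 : Tendsto (fun k : ℕ => (14:ENNReal) * 2⁻¹ ^ k) atTop (𝓝 (14 * 0)) :=
      ENNReal.Tendsto.const_mul (ENNReal.tendsto_pow_atTop_nhds_zero_of_lt_one
        (by rw [ENNReal.inv_lt_one]; norm_num)) (Or.inr (by norm_num))
    rw [mul_zero] at h3
    simpa using h2.add h3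
  by_contra hne
  have h4 : ∀ᶠ k : ℕ in atTop, ((k:ENNReal) + 1)⁻¹ + 14 * 2⁻¹ ^ k < theta X p q :=
    hlim.eventually (Iio_mem_nhds (pos_iff_ne_zero.2 hne))
  obtain ⟨k, hk, hk2, hk3⟩ := (hX.and_eventually (hev.and h4)).exists
  exact absurd (hb k hk hk2) (not_le.2 hk3)

/-- the homogeneous model does not percolate at `1/5` -/
theorem hom_zero {p : unitInterval} (hp : (p:ℝ) ≤ 1/5) :
    Perc (fun _ => p) {ω | (cluster ω).Infinite} = 0 := by
  have hb : ∀ n : ℕ, Perc (fun _ => p) {ω | (cluster ω).Infinite} ≤ (4 * 5⁻¹) ^ n := by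
    intro n
    have h1 := path_bound (fun _ => p) univ (ρ := 5⁻¹) (fun e _ => by
      calc ENNReal.ofReal p ≤ ENNReal.ofReal (1/5) := ENNReal.ofReal_le_ofReal hp
        _ = 5⁻¹ := by
          rw [one_div, ENNReal.ofReal_inv_of_pos (by norm_num)]; norm_num) 0 n ∅ (by simp) univ
      (fun _ _ _ _ => mem_univ _)
    rw [univ_inter, measure_univ, one_mul] at h1
    exact (measure_mono fun ω hω => det_hom hω n).trans h1
  have hlim : Tendsto (fun n : ℕ => (4 * 5⁻¹ : ENNReal) ^ n) atTop (𝓝 0) := by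
    apply ENNReal.tendsto_pow_atTop_nhds_zero_of_lt_one
    rw [← div_eq_mul_inv]
    exact ENNReal.div_lt_of_lt_mul (by norm_num)
  exact le_antisymm (ge_of_tendsto' hlim hb) (zero_le)

end Pool.Agent.R951.Stack
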