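import Mathlib

open MeasureTheory ProbabilityTheory Set

namespace Pool.Agent.R951.Stack

set_option linter.unusedSectionVars false

variable {ι X : Type*} [MeasurableSpace X] [DiscreteMeasurableSpace X] [Countable X]

/-- `A` depends only on the coordinates in `S` -/
def Dep (S : Finset ι) (A : Set (ι → X)) : Prop :=
  ∀ x y : ι → X, (∀ i ∈ S, x i = y i) → x ∈ A → y ∈ A

lemma Dep.mono {S T : Finset ι} {A : Set (ι → X)} (h : Dep S A) (hST : S ⊆ T) : Dep T A :=
  fun x y hxy hx => h x y (fun i hi => hxy i (hST hi)) hx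

lemma Dep.compl {S : Finset ι} {A : Set (ι → X)} (h : Dep S A) : Dep S Aᶜ :=
  fun x y hxy hx hy => hx (h y x (fun i hi => (hxy i hi).symm) hy)

lemma Dep.inter {S : Finset ι} {A B : Set (ι → X)} (hA : Dep S A) (hB : Dep S B) :
    Dep S (A ∩ B) :=
  fun x y hxy hx => ⟨hA x y hxy hx.1, hB x y hxy hx.2⟩

lemma Dep.eq_preimage {S : Finset ι} {A : Set (ι → X)} (h : Dep S A) :
    A = (fun (x : ι → X) (i : S) => x i) ⁻¹' {y | ∃ x ∈ A, ∀ i : S, x i = y i} := by
  ext x
  constructor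
  · intro hx; exact ⟨x, hx, fun _ => rfl⟩
  · rintro ⟨z, hz, hzx⟩
    exact h z x (fun i hi => hzx ⟨i, hi⟩) hz

lemma Dep.meas {S : Finset ι} {A : Set (ι → X)} (h : Dep S A) : MeasurableSet A := by
  rw [h.eq_preimage]
  exact (MeasurableSet.of_discrete).preimage (by fun_prop)

theorem indep_of_dep (ν : ι → Measure X) [∀ i, IsProbabilityMeasure (ν i)] {S T : Finset ι}
    (hST : Disjoint S T) {A B : Set (ι → X)} (hA : Dep S A) (hB : Dep T B) :
    Measure.infinitePi ν (A ∩ B) = Measure.infinitePi ν A * Measure.infinitePi ν B := by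
  have h1 : iIndepFun (fun (i : ι) (ω : ι → X) => ω i) (Measure.infinitePi ν) :=
    iIndepFun_infinitePi (X := fun _ x => x) (fun _ => measurable_id)
  have h2 := h1.indepFun_finset S T hST (fun i => measurable_pi_apply i)
  rw [indepFun_iff_measure_inter_preimage_eq_mul] at h2
  have h3 := h2 {y | ∃ x ∈ A, ∀ i : S, x i = y i} {y | ∃ x ∈ B, ∀ i : T, x i = y i}
    MeasurableSet.of_discrete MeasurableSet.of_discrete
  have eA := hA.eq_preimage
  have eB := hB.eq_preimage
  rw [← eA, ← eB] at h3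
  exact h3

/-- all coordinates in `F` lie in `c` -/
theorem cyl (ν : ι → Measure X) [∀ i, IsProbabilityMeasure (ν i)] (F : Finset ι) (c : Set X) :
    Measure.infinitePi ν {ω | ∀ i ∈ F, ω i ∈ c} = ∏ i ∈ F, ν i c := by
  have : {ω : ι → X | ∀ i ∈ F, ω i ∈ c} = Set.pi F (fun _ => c) := by
    ext x; simp [Set.mem_pi]
  rw [this]
  exact Measure.infinitePi_pi (X := fun _ : ι => X) (μ := ν) (t := fun _ => c)
    (fun _ _ => MeasurableSet.of_discrete)

theorem blocks (ν : ι → Measure X) [∀ i, IsProbabilityMeasure (ν i)] [DecidableEq ι]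
    (S : ℕ → Finset ι) (hS : ∀ i j, i ≠ j → Disjoint (S i) (S j)) (E : ℕ → Set (ι → X))
    (hE : ∀ j, Dep (S j) (E j)) (δ : ENNReal) (hδ : ∀ j, δ ≤ Measure.infinitePi ν (E j)) (m : ℕ) :
    Measure.infinitePi ν (⋂ j ∈ Finset.range m, (E j)ᶜ) ≤ (1 - δ) ^ m := by
  have hdep : ∀ m : ℕ, Dep ((Finset.range m).biUnion S) (⋂ j ∈ Finset.range m, (E j)ᶜ) := by
    intro m x y hxy hx
    simp only [mem_iInter] at hx ⊢
    intro j hj
    refine (hE j).compl x y (fun i hi => hxy i (Finset.mem_biUnion.2 ⟨j, hj, hi⟩)) (hx j hj)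
  induction m with
  | zero => simp
  | succ m ih =>
    have h1 : (⋂ j ∈ Finset.range (m+1), (E j)ᶜ) = (⋂ j ∈ Finset.range m, (E j)ᶜ) ∩ (E m)ᶜ := by
      rw [Finset.range_add_one, Finset.set_biInter_insert, inter_comm]
    rw [h1, indep_of_dep ν (S := (Finset.range m).biUnion S) (T := S m) _ (hdep m) (hE m).compl,
      pow_succ]
    · refine mul_le_mul' ih ?_
      rw [prob_compl_eq_one_sub (hE m).meas]
      exact tsub_le_tsub_left (hδ m) 1
    · rw [Finset.disjoint_biUnion_left]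
      intro j hj
      exact hS j m (Finset.mem_range.1 hj).ne

end Pool.Agent.R951.Stack
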